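import Pool.Agent.H84.B.Targets

/-!
# Module PERM for MP_02e9fb_an
-/

open Filter Topology

namespace Pool.Agent.H77.BE

open Pool.Agent.H84.B

theorem perm_extend : T_perm_extend := by
  intro s f hf
  classical
  set t : Finset ℕ := s ∪ s.image f with ht
  obtain ⟨g, hg⟩ := Finset.exists_equiv_extend_of_card_eq (α := t) (β := ℕ) (t := t)
    (Fintype.card_coe t) (s := Finset.univ.filter (fun x : t => x.1 ∈ s)) (f := fun x => f x.1)
    (by
      intro y hy
      simp only [Finset.mem_image, Finset.mem_filter, Finset.mem_univ, true_and] at hy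
      obtain ⟨x, hx, rfl⟩ := hy
      exact Finset.mem_union_right _ (Finset.mem_image_of_mem _ hx))
    (by
      intro x hx y hy hxy
      simp only [Finset.coe_filter, Finset.mem_univ, true_and, Set.mem_ofPred_eq] at hx hy
      exact Subtype.ext (hf hx hy hxy))
  refine ⟨⟨Equiv.Perm.ofSubtype (p := fun i => i ∈ t) g, ?_⟩, ?_, ?_⟩
  · refine Set.Finite.subset t.finite_toSet ?_
    intro i hi
    by_contra h
    exact hi (Equiv.Perm.ofSubtype_apply_of_not_mem (p := fun i => i ∈ t) g h)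
  · intro i hi
    have hit : i ∈ t := Finset.mem_union_left _ hi
    have := hg ⟨i, hit⟩ (by simp [hi])
    rw [← this]
    exact Equiv.Perm.ofSubtype_apply_of_mem (p := fun i => i ∈ t) g hit
  · intro i hi hi'
    exact Equiv.Perm.ofSubtype_apply_of_not_mem (p := fun i => i ∈ t) g
      (by simp only [ht, Finset.mem_union, not_or]; exact ⟨hi, hi'⟩)

section hh

variable {Λ : Type} [CommRing Λ]

lemma Yext {y y' : Y Λ} (h : ∀ i, y.1 i = y'.1 i) : y = y' :=
  Subtype.ext (Finsupp.ext h)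

lemma pY_add (σ : FP) (y y' : Y Λ) : pY σ (y + y') = pY σ y + pY σ y' :=
  Yext fun _ => rfl

lemma pY_smul (σ : FP) (k : Λ) (y : Y Λ) : pY σ (k • y) = k • pY σ y :=
  Yext fun _ => rfl

lemma pY_neg (σ : FP) (y : Y Λ) : pY σ (-y) = -pY σ y :=
  Yext fun _ => rfl

lemma pY_mul (σ τ : FP) (y : Y Λ) : pY (σ * τ) y = pY σ (pY τ y) :=
  Yext fun _ => rfl

lemma pY_one (y : Y Λ) : pY 1 y = y :=
  Yext fun _ => rfl

lemma pY_zero (σ : FP) : pY σ (0 : Y Λ) = 0 :=
  Yext fun _ => rfl

lemma pY_sum {ι : Type*} (s : Finset ι) (σ : FP) (y : ι → Y Λ) :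
    pY σ (∑ i ∈ s, y i) = ∑ i ∈ s, pY σ (y i) := by
  classical
  induction s using Finset.induction_on with
  | empty => simp [pY_zero]
  | insert a s ha ih => rw [Finset.sum_insert ha, Finset.sum_insert ha, pY_add, ih]

lemma pY_fix (σ : FP) (y : Y Λ) (h : ∀ i, y.1 i ≠ 0 → σ.1 i = i) : pY σ y = y := by
  refine Yext fun i => ?_
  rw [pY_apply]
  by_cases hi : y.1 i = 0
  · by_cases h' : y.1 (σ.1.symm i) = 0
    · rw [h', hi]
    · have := h _ h'
      rw [Equiv.apply_symm_apply] at this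
      rw [← this]
  · have := h _ hi
    congr 1
    rw [Equiv.symm_apply_eq]
    exact this.symm

lemma copy_refl (y : Y Λ) : IsCopy y y := ⟨1, (pY_one y).symm⟩

lemma copy_symm {y y' : Y Λ} (h : IsCopy y y') : IsCopy y' y := by
  obtain ⟨σ, rfl⟩ := h
  refine ⟨σ⁻¹, ?_⟩
  rw [← pY_mul, inv_mul_cancel, pY_one]

lemma copy_trans {y y' y'' : Y Λ} (h : IsCopy y y') (h' : IsCopy y' y'') : IsCopy y y'' := by
  obtain ⟨σ, rfl⟩ := h
  obtain ⟨τ, rfl⟩ := h'
  exact ⟨τ * σ, (pY_mul _ _ _).symm⟩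

lemma copy_smul (k : Λ) {y y' : Y Λ} (h : IsCopy y y') : IsCopy (k • y) (k • y') := by
  obtain ⟨σ, rfl⟩ := h
  exact ⟨σ, (pY_smul _ _ _).symm⟩

/-- pY in terms of the values on the support -/
lemma eq_pY_of (σ : FP) {y y' : Y Λ} (h1 : ∀ i, y.1 i ≠ 0 → y'.1 (σ.1 i) = y.1 i)
    (h2 : ∀ j, y'.1 j ≠ 0 → ∃ i, y.1 i ≠ 0 ∧ σ.1 i = j) : y' = pY σ y := by
  refine Yext fun j => ?_
  rw [pY_apply]
  by_cases hj : y'.1 j = 0
  · by_contra hne
    rw [hj] at hne
    have := h1 (σ.1.symm j) (fun h => hne h.symm)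
    rw [Equiv.apply_symm_apply, hj] at this
    exact hne this
  · obtain ⟨i, hi, rfl⟩ := h2 j hj
    rw [Equiv.symm_apply_apply, h1 i hi]

/-- two vectors conjugate under a map injective on the support -/
lemma copy_of_inj {y y' : Y Λ} (f : ℕ → ℕ) (hf : Set.InjOn f y.1.support)
    (h1 : ∀ i, y.1 i ≠ 0 → y'.1 (f i) = y.1 i)
    (h2 : ∀ j, y'.1 j ≠ 0 → ∃ i, y.1 i ≠ 0 ∧ f i = j) :
    ∃ σ : FP, y' = pY σ y ∧ (∀ i, y.1 i ≠ 0 → σ.1 i = f i) ∧
      (∀ i, y.1 i = 0 → y'.1 i = 0 → σ.1 i = i) := by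
  obtain ⟨σ, hσ, hσ'⟩ := perm_extend y.1.support f hf
  refine ⟨σ, ?_, ?_, ?_⟩
  · refine eq_pY_of σ ?_ ?_
    · intro i hi
      rw [hσ i (by simpa using hi)]
      exact h1 i hi
    · intro j hj
      obtain ⟨i, hi, hij⟩ := h2 j hj
      exact ⟨i, hi, by rw [hσ i (by simpa using hi)]; exact hij⟩
  · intro i hi
    exact hσ i (by simpa using hi)
  · intro i hi hi'
    refine hσ' i (by simpa using hi) ?_
    intro hmem
    rw [Finset.mem_image] at hmem
    obtain ⟨j, hj, hji⟩ := hmem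
    have := h1 j (by simpa using hj)
    rw [hji, hi'] at this
    exact (by simpa using hj : y.1 j ≠ 0) this.symm

lemma pr_apply (c : Λ) (i j l : ℕ) :
    (pr c i j).1 l = (if i = l then c else 0) - (if j = l then c else 0) := by
  simp [pr, Finsupp.single_apply]

lemma coe_sum {ι : Type*} (s : Finset ι) (y : ι → Y Λ) (i : ℕ) :
    (∑ j ∈ s, y j).1 i = ∑ j ∈ s, (y j).1 i := by
  rw [AddSubmonoidClass.coe_finsetSum, Finsupp.finsetSum_apply]

lemma Dblk_apply (p : ℕ) (b : Λ) (o i : ℕ) :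
    (Dblk p b o).1 i = (if o + 1 ≤ i ∧ i < o + (p + 1) then b else 0)
      - (if o = i then (p : Λ) * b else 0) := by
  unfold Dblk
  rw [coe_sum]
  simp only [pr_apply]
  rw [Finset.sum_sub_distrib]
  congr 1
  · split_ifs with h
    · rw [Finset.sum_eq_single (i - (o + 1))]
      · rw [if_pos (by omega)]
      · intro j _ hj
        rw [if_neg (by omega)]
      · intro hn
        exact absurd (Finset.mem_range.2 (by omega)) hn
    · refine Finset.sum_eq_zero fun j hj => ?_
      rw [if_neg]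
      rw [Finset.mem_range] at hj
      omega
  · rw [Finset.sum_const, Finset.card_range, nsmul_eq_mul]
    split_ifs <;> simp

lemma Dblk_supp (p : ℕ) (b : Λ) (o i : ℕ) (h : (Dblk p b o).1 i ≠ 0) :
    o ≤ i ∧ i < o + (p + 1) := by
  rw [Dblk_apply] at h
  by_contra hn
  apply h
  rw [if_neg (by omega), if_neg (by omega), sub_zero]

lemma hh_succ (p : ℕ) (β : ℕ → Λ) (o m : ℕ) :
    hh p β o (m + 1) = hh p β o m + Dblk p (β m) (o + (p + 1) * m) := by
  unfold hh
  rw [Finset.sum_range_succ]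

lemma hh_supp (p : ℕ) (β : ℕ → Λ) (o m i : ℕ) (h : (hh p β o m).1 i ≠ 0) :
    o ≤ i ∧ i < o + (p + 1) * m := by
  unfold hh at h
  rw [coe_sum] at h
  obtain ⟨l, hl, hl'⟩ := Finset.exists_ne_zero_of_sum_ne_zero h
  have h1 := Dblk_supp _ _ _ _ hl'
  rw [Finset.mem_range] at hl
  have h2 : (p + 1) * l + (p + 1) ≤ (p + 1) * m := by
    calc (p + 1) * l + (p + 1) = (p + 1) * (l + 1) := by ring
      _ ≤ (p + 1) * m := Nat.mul_le_mul_left _ hl
  constructor
  · have : o ≤ o + (p + 1) * l := Nat.le_add_right _ _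
    omega
  · omega

lemma Dblk_shift (p : ℕ) (b : Λ) (o o' i : ℕ) :
    (Dblk p b (o + o')).1 (i + o') = (Dblk p b o).1 i := by
  rw [Dblk_apply, Dblk_apply]
  congr 1
  · exact if_congr (by omega) rfl rfl
  · exact if_congr (by omega) rfl rfl

lemma hh_shift (p : ℕ) (β : ℕ → Λ) (o m i : ℕ) :
    (hh p β o m).1 (i + o) = (hh p β 0 m).1 i := by
  unfold hh
  rw [coe_sum, coe_sum]
  refine Finset.sum_congr rfl fun l _ => ?_
  rw [← Dblk_shift p (β l) (0 + (p + 1) * l) o i]
  congr 3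
  omega

lemma copy_hh (p : ℕ) (β : ℕ → Λ) (o m : ℕ) : IsCopy (hh p β 0 m) (hh p β o m) := by
  obtain ⟨σ, hσ, _⟩ := copy_of_inj (y := hh p β 0 m) (y' := hh p β o m) (fun i => i + o)
    (fun a _ b _ hab => by simpa using hab)
    (fun i _ => hh_shift p β o m i)
    (fun j hj => by
      have := (hh_supp _ _ _ _ _ hj).1
      refine ⟨j - o, ?_, by omega⟩
      rw [← hh_shift p β o m (j - o), Nat.sub_add_cancel this]
      exact hj)
  exact ⟨σ, hσ⟩

end hh

theorem hh_facts : T_hh := by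
  intro Λ _
  exact ⟨pY_add, pY_smul, pY_neg, pY_mul, pY_one, copy_refl, fun _ _ h => copy_symm h,
    fun _ _ _ h h' => copy_trans h h', fun k _ _ h => copy_smul k h, pY_fix, copy_hh,
    Dblk_supp, hh_supp, hh_succ⟩

theorem copies : T_copies := by
  intro Λ _ y B N
  classical
  -- a bound for `B` and for the support of `y`
  obtain ⟨n, hn⟩ : ∃ n, ∀ i, y.1 i ≠ 0 → i < n := by
    refine ⟨(y.1.support.sup id) + 1, fun i hi => ?_⟩
    have : i ≤ y.1.support.sup id := Finset.le_sup (f := id) (by simpa using hi)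
    omega
  obtain ⟨o, ho⟩ : ∃ o, ∀ i ∈ B, i < o := by
    refine ⟨(B.sup id) + 1, fun i hi => ?_⟩
    have : i ≤ B.sup id := Finset.le_sup (f := id) hi
    omega
  -- translated vector
  have key : ∀ d : ℕ, ∃ y' : Y Λ, IsCopy y y' ∧ ∀ i, y'.1 i ≠ 0 → d ≤ i ∧ i < d + n := by
    intro d
    obtain ⟨σ, hσ, _⟩ := perm_extend y.1.support (fun i => i + d)
      (fun a _ b _ hab => by simpa using hab)
    refine ⟨pY σ y, ⟨σ, rfl⟩, ?_⟩
    intro i hi
    rw [pY_apply] at hi
    have h1 := hσ (σ.1.symm i) (by simpa using hi)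
    rw [Equiv.apply_symm_apply] at h1
    have h2 := hn _ hi
    omega
  choose c hc hc' using key
  refine ⟨fun j => c (o + n * j), fun j => hc _, fun j => ?_, fun j j' hjj' => ?_⟩
  · rw [Off, Finset.disjoint_left]
    intro i hi hiB
    have h1 := hc' _ i (by simpa using hi)
    have h2 := ho i hiB
    omega
  · rw [Dsj, Finset.disjoint_left]
    intro i hi hi'
    have h1 := hc' _ i (by simpa using hi)
    have h2 := hc' _ i (by simpa using hi')
    have h3 : (j : ℕ) ≠ j' := fun h => hjj' (Fin.ext h)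
    rcases Nat.lt_or_gt_of_ne h3 with h | h
    · have h4 : n * (j : ℕ) + n ≤ n * j' := by
        calc n * (j : ℕ) + n = n * (j + 1) := by ring
          _ ≤ n * j' := Nat.mul_le_mul_left _ h
      omega
    · have h4 : n * (j' : ℕ) + n ≤ n * j := by
        calc n * (j' : ℕ) + n = n * (j' + 1) := by ring
          _ ≤ n * j := Nat.mul_le_mul_left _ h
      omega

theorem conj : T_conj := by
  intro Λ _ B N c c' hcc' hB hB' hd hd'
  classical
  choose σ hσ using hcc'
  have hval : ∀ n i, (c' n).1 ((σ n).1 i) = (c n).1 i := by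
    intro n i
    rw [hσ n, pY_apply, Equiv.symm_apply_apply]
  have hdis : ∀ {y y' : Y Λ}, Dsj y y' → ∀ i, y.1 i ≠ 0 → y'.1 i = 0 := by
    intro y y' h i hi
    by_contra hi'
    exact Finset.disjoint_left.1 h (by simpa using hi) (by simpa using hi')
  have hoff : ∀ {y : Y Λ}, Off y B → ∀ i ∈ B, y.1 i = 0 := by
    intro y h i hi
    by_contra hi'
    exact Finset.disjoint_left.1 h (by simpa using hi') hi
  -- the union map
  set s : Finset ℕ := Finset.univ.biUnion (fun n => (c n).1.support) with hs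
  have hmem : ∀ i, i ∈ s ↔ ∃ n, (c n).1 i ≠ 0 := by
    intro i; simp [hs]
  set f : ℕ → ℕ := fun i => if h : ∃ n, (c n).1 i ≠ 0 then (σ h.choose).1 i else i with hf
  have hfv : ∀ n i, (c n).1 i ≠ 0 → f i = (σ n).1 i := by
    intro n i hi
    have h : ∃ n, (c n).1 i ≠ 0 := ⟨n, hi⟩
    have : h.choose = n := by
      by_contra hne
      exact hi (hdis (hd _ _ hne) i h.choose_spec)
    simp only [hf, dif_pos h, this]
  have hinj : Set.InjOn f s := by
    intro i hi j hj hij
    obtain ⟨n, hn⟩ := (hmem i).1 hi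
    obtain ⟨m, hm⟩ := (hmem j).1 hj
    rw [hfv n i hn, hfv m j hm] at hij
    by_cases hnm : n = m
    · subst hnm
      exact (σ n).1.injective hij
    · exfalso
      have h1 : (c' n).1 ((σ n).1 i) ≠ 0 := by rw [hval]; exact hn
      have h2 : (c' m).1 ((σ n).1 i) ≠ 0 := by rw [hij, hval]; exact hm
      exact h2 (hdis (hd' _ _ hnm) _ h1)
  obtain ⟨τ, hτ, hτ'⟩ := perm_extend s f hinj
  refine ⟨τ, ?_, ?_⟩
  · intro i hi
    refine hτ' i ?_ ?_
    · rw [hmem]
      rintro ⟨n, hn⟩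
      exact hn (hoff (hB n) i hi)
    · intro himg
      rw [Finset.mem_image] at himg
      obtain ⟨j, hj, hji⟩ := himg
      obtain ⟨n, hn⟩ := (hmem j).1 hj
      rw [hfv n j hn] at hji
      have : (c' n).1 i ≠ 0 := by rw [← hji, hval]; exact hn
      exact this (hoff (hB' n) i hi)
  · intro n
    refine eq_pY_of τ ?_ ?_
    · intro i hi
      rw [hτ i ((hmem i).2 ⟨n, hi⟩), hfv n i hi, hval]
    · intro j hj
      refine ⟨(σ n).1.symm j, ?_, ?_⟩
      · rw [← hval, Equiv.apply_symm_apply]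
        exact hj
      · have h0 : (c n).1 ((σ n).1.symm j) ≠ 0 := by
          rw [← hval, Equiv.apply_symm_apply]
          exact hj
        rw [hτ _ ((hmem _).2 ⟨n, h0⟩), hfv n _ h0, Equiv.apply_symm_apply]

section adm

variable {Λ : Type} [CommRing Λ] {p : ℕ} (ρ : Λ →+* ZMod p)

lemma adm_pY (σ : FP) (y : Y Λ) : Adm ρ (pY σ y) ↔ Adm ρ y := by
  constructor
  · intro h i
    have := h (σ.1 i)
    rwa [pY_apply, Equiv.symm_apply_apply] at this
  · intro h i
    rw [pY_apply]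
    exact h _

variable [Fact p.Prime]

lemma units_set (y : Y Λ) (s : Finset ℕ) (h : ∀ i, i ∈ s ↔ ρ (y.1 i) = 1) :
    units ρ y = s.card := by
  classical
  unfold units
  congr 1
  ext i
  rw [Finset.mem_filter, h, Finsupp.mem_support_iff]
  refine ⟨fun h => h.2, fun h => ⟨?_, h⟩⟩
  intro h0
  rw [h0, map_zero] at h
  exact zero_ne_one h

lemma mem_unitsSet (y : Y Λ) (i : ℕ) [DecidablePred fun i => ρ (y.1 i) = 1] :
    i ∈ y.1.support.filter (fun i => ρ (y.1 i) = 1) ↔ ρ (y.1 i) = 1 := by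
  rw [Finset.mem_filter, Finsupp.mem_support_iff]
  refine ⟨fun h => h.2, fun h => ⟨?_, h⟩⟩
  intro h0
  rw [h0, map_zero] at h
  exact zero_ne_one h

lemma units_pY (σ : FP) (y : Y Λ) : units ρ (pY σ y) = units ρ y := by
  classical
  have := units_set ρ (pY σ y)
    ((y.1.support.filter (fun i => ρ (y.1 i) = 1)).map σ.1.toEmbedding) (by
      intro i
      rw [Finset.mem_map_equiv, mem_unitsSet, pY_apply])
  rw [this, Finset.card_map]
  exact (units_set ρ y _ (fun i => mem_unitsSet ρ y i)).symm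

omit [Fact p.Prime] in
lemma dsj_cases {y y' : Y Λ} (h : Dsj y y') (i : ℕ) : y.1 i = 0 ∨ y'.1 i = 0 := by
  by_contra hn
  push Not at hn
  exact Finset.disjoint_left.1 h (by simpa using hn.1) (by simpa using hn.2)

omit [Fact p.Prime] in
lemma adm_add {y y' : Y Λ} (h : Dsj y y') (hy : Adm ρ y) (hy' : Adm ρ y') : Adm ρ (y + y') := by
  intro i
  have : (y + y').1 i = y.1 i + y'.1 i := rfl
  rw [this]
  rcases dsj_cases h i with h0 | h0
  · rw [h0, zero_add]; exact hy' i
  · rw [h0, add_zero]; exact hy i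

lemma units_add {y y' : Y Λ} (h : Dsj y y') : units ρ (y + y') = units ρ y + units ρ y' := by
  classical
  rw [units_set ρ y _ (fun i => mem_unitsSet ρ y i),
    units_set ρ y' _ (fun i => mem_unitsSet ρ y' i),
    ← Finset.card_union_of_disjoint]
  · refine units_set ρ (y + y') _ ?_
    intro i
    rw [Finset.mem_union, mem_unitsSet, mem_unitsSet]
    have : (y + y').1 i = y.1 i + y'.1 i := rfl
    rw [this]
    rcases dsj_cases h i with h0 | h0
    · rw [h0, zero_add, map_zero]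
      simp [zero_ne_one]
    · rw [h0, add_zero, map_zero]
      simp [zero_ne_one]
  · exact Finset.disjoint_filter_filter h

lemma adm_Dblk (b : Λ) (o : ℕ) (hb : ρ b = 1) :
    Adm ρ (Dblk p b o) ∧ units ρ (Dblk p b o) = p := by
  have hval : ∀ i, ρ ((Dblk p b o).1 i) = if o + 1 ≤ i ∧ i < o + (p + 1) then 1 else 0 := by
    intro i
    rw [Dblk_apply, map_sub]
    have h2 : ρ (if o = i then (p : Λ) * b else 0) = 0 := by
      split_ifs
      · rw [map_mul, map_natCast, ZMod.natCast_self, zero_mul]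
      · exact map_zero _
    rw [h2, sub_zero]
    split_ifs
    · exact hb
    · exact map_zero _
  constructor
  · intro i
    rw [hval]
    split_ifs
    · exact Or.inr rfl
    · exact Or.inl rfl
  · rw [units_set ρ (Dblk p b o) (Finset.Ico (o + 1) (o + (p + 1)))]
    · rw [Nat.card_Ico]; omega
    · intro i
      rw [hval, Finset.mem_Ico]
      split_ifs with h
      · exact ⟨fun _ => rfl, fun _ => h⟩
      · exact ⟨fun h' => absurd h' h, fun h' => absurd h' zero_ne_one⟩

omit [Fact p.Prime] in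
lemma dsj_of {y y' : Y Λ} (h : ∀ i, y.1 i ≠ 0 → y'.1 i ≠ 0 → False) : Dsj y y' := by
  rw [Dsj, Finset.disjoint_left]
  intro i hi hi'
  exact h i (by simpa using hi) (by simpa using hi')

lemma adm_hh (β : ℕ → Λ) (o m : ℕ) (hβ : ∀ l, ρ (β l) = 1) :
    Adm ρ (hh p β o m) ∧ units ρ (hh p β o m) = p * m := by
  induction m with
  | zero =>
    have h0 : hh p β o 0 = 0 := by simp [hh]
    rw [h0]
    constructor
    · intro i
      left
      have : (0 : Y Λ).1 i = 0 := rfl
      rw [this, map_zero]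
    · rw [units_set ρ (0 : Y Λ) ∅]
      · simp
      · intro i
        have : (0 : Y Λ).1 i = 0 := rfl
        rw [this, map_zero]
        simp [zero_ne_one]
  | succ m ih =>
    rw [hh_succ]
    have hd : Dsj (hh p β o m) (Dblk p (β m) (o + (p + 1) * m)) := by
      refine dsj_of (fun i hi hi' => ?_)
      have h1 := hh_supp _ _ _ _ _ hi
      have h2 := Dblk_supp _ _ _ _ hi'
      omega
    have hD := adm_Dblk ρ (β m) (o + (p + 1) * m) (hβ m)
    refine ⟨adm_add ρ hd ih.1 hD.1, ?_⟩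
    rw [units_add ρ hd, ih.2, hD.2]
    ring

lemma adm_dvd (y : Y Λ) (hy : Adm ρ y) : p ∣ units ρ y := by
  classical
  rw [← ZMod.natCast_eq_zero_iff]
  have h0 : sumMap Λ y.1 = 0 := y.2
  have h1 : ∑ i ∈ y.1.support, y.1 i = 0 := by
    rw [sumMap, Finsupp.linearCombination_apply, Finsupp.sum] at h0
    rw [← h0]
    exact Finset.sum_congr rfl fun i _ => by simp
  have h2 : ∑ i ∈ y.1.support, ρ (y.1 i) = 0 := by
    rw [← map_sum, h1, map_zero]
  rw [units, Finset.card_filter, Nat.cast_sum, ← h2]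
  refine Finset.sum_congr rfl fun i _ => ?_
  rcases hy i with h | h
  · rw [h, if_neg zero_ne_one]; simp
  · rw [h, if_pos rfl]; simp

end adm

theorem adm_facts : T_adm := by
  intro Λ _ p _ ρ
  exact ⟨adm_pY ρ, units_pY ρ, fun _ _ h h1 h2 => adm_add ρ h h1 h2,
    fun _ _ h => units_add ρ h, adm_Dblk ρ, adm_hh ρ, adm_dvd ρ⟩

end Pool.Agent.H77.BE
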