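import Pool.Agent.H84.B.Targets
import Pool.Agent.H77.BE.Perm

/-!
# Module KZ for MP_02e9fb_an
-/

open scoped ComplexConjugate InnerProductSpace
open Filter Topology

namespace Pool.Agent.H77.BE

open Pool.Agent.H84.B

/-- A commuting family of linear maps preserving a nonzero finite dimensional subspace has a common
eigenvector in it. -/
lemma exists_common_eigenvector {M : Type*} [AddCommGroup M] [Module ℂ M] {I : Type*}
    (R : I → M →ₗ[ℂ] M) : ∀ (n : ℕ) (E : Submodule ℂ M), FiniteDimensional ℂ E →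
    Module.finrank ℂ E ≤ n → E ≠ ⊥ → (∀ i, ∀ x ∈ E, R i x ∈ E) →
    (∀ i j, ∀ x ∈ E, R i (R j x) = R j (R i x)) →
    ∃ v ∈ E, v ≠ 0 ∧ ∀ i, ∃ μ : ℂ, R i v = μ • v := by
  intro n
  induction n with
  | zero =>
    intro E hfd hn hE _ _
    exfalso
    apply hE
    have h0 : Module.finrank ℂ E = 0 := Nat.le_zero.1 hn
    exact Submodule.finrank_eq_zero.1 h0
  | succ n ih =>
    intro E hfd hn hE hinv hcomm
    by_cases h : ∀ i, ∃ μ : ℂ, ∀ x ∈ E, R i x = μ • x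
    · obtain ⟨v, hv, hv0⟩ := Submodule.exists_mem_ne_zero_of_ne_bot hE
      exact ⟨v, hv, hv0, fun i => (h i).imp fun μ hμ => hμ v hv⟩
    · push Not at h
      obtain ⟨i, hi⟩ := h
      have : Nontrivial E := Submodule.nontrivial_iff_ne_bot.2 hE
      obtain ⟨μ, hμ⟩ := Module.End.exists_eigenvalue ((R i).restrict (hinv i))
      obtain ⟨w, hw⟩ := hμ.exists_hasEigenvector
      have hw1 := hw.apply_eq_smul
      have hw0 : w ≠ 0 := hw.2
      set E' : Submodule ℂ M := E ⊓ LinearMap.ker (R i - μ • LinearMap.id) with hE'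
      have hmem : ∀ x, x ∈ E' ↔ x ∈ E ∧ R i x = μ • x := by
        intro x
        rw [hE', Submodule.mem_inf, LinearMap.mem_ker, LinearMap.sub_apply, sub_eq_zero]
        rfl
      have hle : E' ≤ E := inf_le_left
      have hlt : E' < E := by
        refine lt_of_le_of_ne hle fun heq => ?_
        obtain ⟨x, hx, hx'⟩ := hi μ
        rw [← heq] at hx
        exact hx' ((hmem x).1 hx).2
      have : FiniteDimensional ℂ E' := Submodule.finiteDimensional_of_le hle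
      have hfr : Module.finrank ℂ E' < Module.finrank ℂ E := Submodule.finrank_lt_finrank_of_lt hlt
      obtain ⟨v, hv, hv0, hv'⟩ := ih E' inferInstance (by omega)
        (by
          rw [Submodule.ne_bot_iff]
          refine ⟨w.1, (hmem _).2 ⟨w.2, ?_⟩, fun h0 => hw0 (Subtype.ext h0)⟩
          have := congrArg Subtype.val hw1
          simpa using this)
        (by
          intro j x hx
          have hx' := (hmem x).1 hx
          refine (hmem _).2 ⟨hinv j x hx'.1, ?_⟩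
          rw [hcomm i j x hx'.1, hx'.2, map_smul])
        (by
          intro j l x hx
          exact hcomm j l x (hle hx))
      exact ⟨v, hle hv, hv0, hv'⟩

section rep

variable {Λ : Type} [CommRing Λ] {H : Type} [NormedAddCommGroup H] [InnerProductSpace ℂ H]
    [CompleteSpace H] (R : Rep Λ H)

lemma PH_mem (B : Finset ℕ) (z : H) : R.PH B z ∈ R.HB B :=
  Submodule.starProjection_apply_mem _ _

lemma PR_mem (B : Finset ℕ) (z : H) : R.PR B z ∈ R.RB B :=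
  Submodule.starProjection_apply_mem _ _

lemma PH_self {B : Finset ℕ} {z : H} (h : z ∈ R.HB B) : R.PH B z = z :=
  Submodule.starProjection_eq_self_iff.2 h

lemma PR_self {B : Finset ℕ} {z : H} (h : z ∈ R.RB B) : R.PR B z = z :=
  Submodule.starProjection_eq_self_iff.2 h

lemma inner_PH {B : Finset ℕ} {w : H} (h : w ∈ R.HB B) (z : H) : ⟪w, R.PH B z⟫_ℂ = ⟪w, z⟫_ℂ := by
  have := Submodule.inner_starProjection_left_eq_right (R.HB B) w z
  unfold Rep.PH
  rw [← this]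
  rw [Submodule.starProjection_eq_self_iff.2 h]

lemma inner_PR {B : Finset ℕ} {w : H} (h : w ∈ R.RB B) (z : H) : ⟪w, R.PR B z⟫_ℂ = ⟪w, z⟫_ℂ := by
  have := Submodule.inner_starProjection_left_eq_right (R.RB B) w z
  unfold Rep.PR
  rw [← this]
  rw [Submodule.starProjection_eq_self_iff.2 h]

lemma inner_PH' {B : Finset ℕ} {w : H} (h : w ∈ R.HB B) (z : H) : ⟪R.PH B z, w⟫_ℂ = ⟪z, w⟫_ℂ := by
  rw [← inner_conj_symm, inner_PH R h, inner_conj_symm]

lemma inner_PR' {B : Finset ℕ} {w : H} (h : w ∈ R.RB B) (z : H) : ⟪R.PR B z, w⟫_ℂ = ⟪z, w⟫_ℂ := by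
  rw [← inner_conj_symm, inner_PR R h, inner_conj_symm]

lemma U_U_neg (c : Y Λ) (z : H) : R.U c (R.U (-c) z) = z := by
  have h : c + -c = 0 := add_neg_cancel c
  rw [← R.U_add, h, R.U_zero]

lemma U_neg_U (c : Y Λ) (z : H) : R.U (-c) (R.U c z) = z := by
  have h : -c + c = 0 := neg_add_cancel c
  rw [← R.U_add, h, R.U_zero]

lemma inner_U (c : Y Λ) (x y : H) : ⟪x, R.U c y⟫_ℂ = ⟪R.U (-c) x, y⟫_ℂ := by
  conv_lhs => rw [← U_U_neg R c x]
  exact (R.U c).inner_map_map _ _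

lemma V_base {z : H} (h : z ∈ R.HB ∅) (σ : FP) : R.V σ z = z :=
  h σ (fun i hi => absurd hi (Finset.notMem_empty i))

/-- if `B` and `B'` are disjoint then elements of `HB B` and `HB B'` are orthogonal over the
base -/
lemma inner_disj (hindep : T_indep) {B B' : Finset ℕ} (hd : Disjoint B B') {u w : H}
    (hu : u ∈ R.HB B) (hw : w ∈ R.HB B') : ⟪u, w⟫_ℂ = ⟪u, R.PH ∅ w⟫_ℂ := by
  rw [← inner_PH R hu w, hindep Λ H R B B' w hw, Finset.disjoint_iff_inter_eq_empty.1 hd]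

/-- a finitary permutation moving `B'` off `B` -/
lemma exists_move (B B' : Finset ℕ) : ∃ σ : FP, Disjoint B (B'.map σ.1.toEmbedding) := by
  obtain ⟨o, ho⟩ : ∃ o, ∀ i ∈ B, i < o := by
    refine ⟨(B.sup id) + 1, fun i hi => ?_⟩
    have : i ≤ B.sup id := Finset.le_sup (f := id) hi
    omega
  obtain ⟨σ, hσ, _⟩ := perm_extend B' (fun i => i + o) (fun a _ b _ hab => by simpa using hab)
  refine ⟨σ, ?_⟩
  rw [Finset.disjoint_left]
  intro i hi hi'
  rw [Finset.mem_map] at hi'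
  obtain ⟨j, hj, hji⟩ := hi'
  have h1 := hσ j hj
  have h2 := ho i hi
  have h3 : σ.1 j = i := hji
  omega

lemma supp_pY (σ : FP) (c : Y Λ) : (pY σ c).1.support = c.1.support.map σ.1.toEmbedding := by
  ext i
  rw [Finset.mem_map_equiv, Finsupp.mem_support_iff, Finsupp.mem_support_iff, pY_apply]

lemma supp_neg (c : Y Λ) : (-c).1.support = c.1.support := by
  ext i
  rw [Finsupp.mem_support_iff, Finsupp.mem_support_iff]
  have : (-c).1 i = - c.1 i := rfl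
  rw [this, neg_ne_zero]

end rep

section sys

variable {Λ : Type} [CommRing Λ] {A : Type} [CommRing A] [StarRing A] [Algebra ℂ A]
    [StarModule ℂ A] {H : Type} [NormedAddCommGroup H] [InnerProductSpace ℂ H] [CompleteSpace H]
    (S : Sys Λ A H)

/-- the conditional expectation on the base, on the level of `A` -/
lemma exists_ce (hBd : T_Bd) (hcond : T_cond) :
    ∃ ce : A →ₗ[ℂ] A, ∀ a, S.ι (ce a) = S.PH ∅ (S.ι a) := by
  obtain ⟨_, _, hB3, _⟩ := hBd Λ A H S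
  obtain ⟨hc1, _⟩ := hcond Λ A H S ∅
  have key : ∀ a : A, ∃ a', S.ι a' = S.PH ∅ (S.ι a) := by
    intro a
    obtain ⟨C, hC⟩ := hB3 a
    obtain ⟨a', h, _⟩ := hc1 C a hC
    exact ⟨a', h⟩
  choose g hg using key
  refine ⟨{ toFun := g, map_add' := ?_, map_smul' := ?_}, hg⟩
  · intro a b
    apply S.ι_inj
    rw [hg, map_add, map_add, map_add, hg, hg]
  · intro c a
    apply S.ι_inj
    rw [hg, map_smul, map_smul, RingHom.id_apply, map_smul, hg]

lemma UA_add (y y' : Y Λ) (a : A) : S.UA (y + y') a = S.UA y (S.UA y' a) := by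
  apply S.ι_inj
  rw [S.ι_U, S.ι_U, S.ι_U]
  exact S.U_add y y' _

lemma UA_fix {B : Finset ℕ} {r : A} (hr : S.ι r ∈ S.RB B) {c : Y Λ} (hc : Off c B) :
    S.UA c r = r := by
  apply S.ι_inj
  rw [S.ι_U]
  exact hr.2 c hc

lemma VA_base {z : A} (hz : S.ι z ∈ S.HB ∅) (σ : FP) : S.VA σ z = z := by
  apply S.ι_inj
  rw [S.ι_V]
  exact V_base S.toRep hz σ

lemma ce_mul_disj (hbasic : T_basic) (hindep : T_indep) (hBd : T_Bd)
    (ce : A →ₗ[ℂ] A) (hce : ∀ a, S.ι (ce a) = S.PH ∅ (S.ι a))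
    {B B' : Finset ℕ} (hd : Disjoint B B') {r r' z : A} {c c' : Y Λ}
    (hr : S.ι r ∈ S.RB B) (hr' : S.ι r' ∈ S.RB B') (hc : c.1.support ⊆ B)
    (hc' : c'.1.support ⊆ B') (hz : S.ι z ∈ S.HB ∅) :
    ce (r * S.UA c (ce (r' * S.UA c' z))) = ce (r * r' * S.UA (c + c') z) := by
  obtain ⟨hb1, hb2, hb3, hb4, -⟩ := hbasic Λ H S.toRep
  obtain ⟨hB1, hB2, hB3, hB4, hB5, hB6, hB7, hB8, hB9, hB10, hB11, hB12, hB13, hB14, hB15, -⟩ :=
    hBd Λ A H S
  set x : A := r' * S.UA c' z with hx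
  have hxB : S.ι x ∈ S.HB B' := by
    refine hB14 B' _ _ hr'.1 ?_
    rw [S.ι_U]
    exact hb3 B' c' _ hc' (hb1 ∅ B' (Finset.empty_subset _) hz)
  have hcex : S.ι (ce x) ∈ S.HB ∅ := by
    rw [hce]; exact PH_mem S.toRep _ _
  set y : A := x - ce x with hy
  have hyB : S.ι y ∈ S.HB B' := by
    rw [hy, map_sub]
    exact Submodule.sub_mem _ hxB (hb1 ∅ B' (Finset.empty_subset _) hcex)
  have hy0 : S.PH ∅ (S.ι y) = 0 := by
    rw [hy, map_sub, map_sub, ← hce, sub_eq_zero]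
    exact (PH_self S.toRep hcex).symm
  have hw0 : ce (r * S.UA c y) = 0 := by
    set w : A := ce (r * S.UA c y) with hw
    have hwb : S.ι w ∈ S.HB ∅ := by
      rw [hw, hce]; exact PH_mem S.toRep _ _
    have h1 : ⟪S.ι w, S.ι w⟫_ℂ = 0 := by
      have e0 := inner_PH S.toRep hwb (S.ι (r * S.UA c y))
      have e0' : S.toRep.PH ∅ (S.ι (r * S.UA c y)) = S.ι w := by rw [hw, hce]
      rw [e0'] at e0
      rw [e0]
      have e2 := S.inner_mul (star r) w (S.UA c y)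
      rw [star_star] at e2
      rw [← e2, S.ι_U, inner_U S.toRep]
      have hu : S.U (-c) (S.ι (star r * w)) ∈ S.HB B := by
        refine hb3 B (-c) _ (by rw [supp_neg]; exact hc) ?_
        exact hB14 B _ _ (hB15 B _ hr.1) (hb1 ∅ B (Finset.empty_subset _) hwb)
      rw [inner_disj S.toRep hindep hd hu hyB, show S.toRep.PH ∅ (S.ι y) = 0 from hy0,
        inner_zero_right]
    have h2 : S.ι w = 0 := inner_self_eq_zero.1 h1
    apply S.ι_inj
    rw [h2, map_zero]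
  have hsplit : ce (r * S.UA c x) = ce (r * S.UA c (ce x)) := by
    have : r * S.UA c x = r * S.UA c y + r * S.UA c (ce x) := by
      rw [← mul_add, ← map_add]
      congr 2
      rw [hy]; ring
    rw [this, map_add, hw0, zero_add]
  rw [← hsplit, hx, map_mul (S.UA c), UA_fix S hr' (Disjoint.mono_left hc hd), ← UA_add S]
  congr 1
  ring

lemma ce_conj (hbasic : T_basic) (hBd : T_Bd)
    (ce : A →ₗ[ℂ] A) (hce : ∀ a, S.ι (ce a) = S.PH ∅ (S.ι a)) (σ : FP)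
    {r z : A} {c : Y Λ} (hz : S.ι z ∈ S.HB ∅) :
    ce (S.VA σ r * S.UA (pY σ c) z) = ce (r * S.UA c z) := by
  obtain ⟨hb1, hb2, hb3, hb4, hb5, hb6, hb7, -⟩ := hbasic Λ H S.toRep
  obtain ⟨-, -, -, -, -, -, -, -, -, -, -, -, -, -, -, -, -, -, -, -, hB21, -⟩ := hBd Λ A H S
  have h1 : S.VA σ r * S.UA (pY σ c) z = S.VA σ (r * S.UA c z) := by
    rw [map_mul, hB21, VA_base S hz]
  apply S.ι_inj
  rw [h1, hce, hce, S.ι_V]
  have h2 := hb7 ∅ σ (S.ι (r * S.UA c z))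
  rw [Finset.map_empty] at h2
  change S.toRep.PH ∅ _ = S.toRep.PH ∅ _
  rw [← h2]
  exact V_base S.toRep (PH_mem S.toRep _ _) σ

lemma ce_comm (hbasic : T_basic) (hindep : T_indep) (hBd : T_Bd)
    (ce : A →ₗ[ℂ] A) (hce : ∀ a, S.ι (ce a) = S.PH ∅ (S.ι a))
    {B B' : Finset ℕ} {r r' z : A} {c c' : Y Λ}
    (hr : S.ι r ∈ S.RB B) (hr' : S.ι r' ∈ S.RB B') (hc : c.1.support ⊆ B)
    (hc' : c'.1.support ⊆ B') (hz : S.ι z ∈ S.HB ∅) :
    ce (r * S.UA c (ce (r' * S.UA c' z))) = ce (r' * S.UA c' (ce (r * S.UA c z))) := by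
  obtain ⟨hb1, hb2, hb3, hb4, hb5, hb6, -⟩ := hbasic Λ H S.toRep
  obtain ⟨σ, hσ⟩ := exists_move B B'
  have hr2 : S.ι (S.VA σ r') ∈ S.RB (B'.map σ.1.toEmbedding) := by
    rw [S.ι_V]; exact hb6 B' σ _ hr'
  have hc2 : (pY σ c').1.support ⊆ B'.map σ.1.toEmbedding := by
    rw [supp_pY]; exact Finset.map_subset_map.2 hc'
  have hcez : S.ι (ce (r * S.UA c z)) ∈ S.HB ∅ := by
    rw [hce]; exact PH_mem S.toRep _ _
  calc ce (r * S.UA c (ce (r' * S.UA c' z)))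
      = ce (r * S.UA c (ce (S.VA σ r' * S.UA (pY σ c') z))) := by
        rw [ce_conj S hbasic hBd ce hce σ hz]
    _ = ce (r * S.VA σ r' * S.UA (c + pY σ c') z) :=
        ce_mul_disj S hbasic hindep hBd ce hce hσ hr hr2 hc hc2 hz
    _ = ce (S.VA σ r' * r * S.UA (pY σ c' + c) z) := by rw [mul_comm r, add_comm c]
    _ = ce (S.VA σ r' * S.UA (pY σ c') (ce (r * S.UA c z))) :=
        (ce_mul_disj S hbasic hindep hBd ce hce hσ.symm hr2 hr hc2 hc hz).symm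
    _ = ce (r' * S.UA c' (ce (r * S.UA c z))) := ce_conj S hbasic hBd ce hce σ hcez

/-- the spectral part: if `K` does not vanish on the orthogonal complement of the eigenfunctions
then there is a nonzero finite dimensional eigenspace of `K` in it, with eigenvalue `κ ≠ 0` -/
lemma exists_eigenspace {p : ℕ} {β : ℕ → Λ} {k : Λ} {f : A} {φ : ℕ → ℕ} {K : H →L[ℂ] H}
    (hK : KProp0 S p β k f φ K) (hKe : ∀ ψ, S.IsEig ψ → ∃ c : ℂ, K (S.ι ψ) = c • S.ι ψ)
    {z0 : H} (hz0 : z0 ∈ S.HB ∅) (hz0' : ∀ ψ, S.IsEig ψ → ⟪S.ι ψ, z0⟫_ℂ = 0) (hKz : K z0 ≠ 0) :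
    ∃ (κ : ℂ) (E : Submodule ℂ A), κ ≠ 0 ∧ FiniteDimensional ℂ E ∧ E ≠ ⊥ ∧
      ∀ a, a ∈ E ↔ (S.ι a ∈ S.HB ∅ ∧ (∀ ψ, S.IsEig ψ → ⟪S.ι ψ, S.ι a⟫_ℂ = 0)) ∧
        K (S.ι a) = κ • S.ι a := by
  set P : Submodule ℂ H := Submodule.span ℂ {x | ∃ ψ, S.IsEig ψ ∧ x = S.ι ψ} with hP
  set N0 : Submodule ℂ H := S.HB ∅ ⊓ Pᗮ with hN0
  have hN0mem : ∀ z, z ∈ N0 ↔ z ∈ S.HB ∅ ∧ ∀ ψ, S.IsEig ψ → ⟪S.ι ψ, z⟫_ℂ = 0 := by
    intro z
    rw [hN0, Submodule.mem_inf]
    refine and_congr_right fun _ => ?_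
    rw [Submodule.mem_orthogonal]
    constructor
    · intro h ψ hψ
      exact h _ (Submodule.subset_span ⟨ψ, hψ, rfl⟩)
    · intro h u hu
      induction hu using Submodule.span_induction with
      | mem x hx =>
        obtain ⟨ψ, hψ, rfl⟩ := hx
        exact h ψ hψ
      | zero => exact inner_zero_left _
      | add x y _ _ hx hy => rw [inner_add_left, hx, hy, add_zero]
      | smul c x _ hx => rw [inner_smul_left, hx, mul_zero]
  have hclosed : IsClosed (N0 : Set H) := (S.isClosed_HB ∅).inter P.isClosed_orthogonal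
  have hcompl : CompleteSpace N0 := hclosed.completeSpace_coe
  have hinv : ∀ z ∈ N0, K z ∈ N0 := by
    intro z hz
    rw [hN0mem] at hz ⊢
    refine ⟨hK.base z, fun ψ hψ => ?_⟩
    obtain ⟨c, hc⟩ := hKe ψ hψ
    rw [← hK.symm, hc, inner_smul_left, hz.2 ψ hψ, mul_zero]
  have hsymm : K.IsSymmetric := fun x y => hK.symm x y
  let T : N0 →L[ℂ] N0 := K.restrict hinv
  have hTc : IsCompactOperator T := hK.compact.restrict' hinv
  have hTs : T.IsSymmetric := hsymm.restrict_invariant hinv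
  have hT0 : T ≠ 0 := by
    intro h
    apply hKz
    have := congrArg (fun t : N0 →L[ℂ] N0 => (t ⟨z0, (hN0mem z0).2 ⟨hz0, hz0'⟩⟩ : H)) h
    simpa [T] using this
  obtain ⟨κ, hκ, hκ0⟩ : ∃ κ : ℂ, Module.End.HasEigenvalue (T : Module.End ℂ N0) κ ∧ κ ≠ 0 := by
    by_contra hne
    push Not at hne
    exact hT0 ((ContinuousLinearMap.eq_zero_of_forall_hasEigenvalue_eq_zero hTc hTs).1 hne)
  have hfd := ContinuousLinearMap.finite_dimensional_eigenspace hTc κ hκ0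
  set E : Submodule ℂ A :=
    (N0 ⊓ LinearMap.ker ((K : H →ₗ[ℂ] H) - κ • LinearMap.id)).comap S.ι with hE
  have hEmem : ∀ a, a ∈ E ↔ S.ι a ∈ N0 ∧ K (S.ι a) = κ • S.ι a := by
    intro a
    rw [hE, Submodule.mem_comap, Submodule.mem_inf, LinearMap.mem_ker, LinearMap.sub_apply,
      sub_eq_zero]
    rfl
  refine ⟨κ, E, hκ0, ?_, ?_, ?_⟩
  · -- finite dimension
    have h1 : ∀ x : E, (S.ι ∘ₗ E.subtype) x ∈ N0 := fun x => ((hEmem x.1).1 x.2).1
    have h2 : ∀ x : E, LinearMap.codRestrict N0 (S.ι ∘ₗ E.subtype) h1 x ∈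
        Module.End.eigenspace (T : Module.End ℂ N0) κ := by
      intro x
      rw [Module.End.mem_eigenspace_iff]
      apply Subtype.ext
      exact ((hEmem x.1).1 x.2).2
    have h3 := hfd
    refine Module.Finite.of_injective (LinearMap.codRestrict _
      (LinearMap.codRestrict N0 (S.ι ∘ₗ E.subtype) h1) h2) ?_
    intro x y hxy
    have h4 : S.ι x.1 = S.ι y.1 := congrArg (fun t => ((t : Module.End.eigenspace
      (T : Module.End ℂ N0) κ).1 : H)) hxy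
    exact Subtype.ext (S.ι_inj h4)
  · obtain ⟨w, hw⟩ := hκ.exists_hasEigenvector
    have hw1 : K w.1 = κ • w.1 := congrArg Subtype.val hw.apply_eq_smul
    have hw0 : w.1 ≠ 0 := fun h => hw.2 (Subtype.ext h)
    obtain ⟨a, ha, -⟩ := hK.bdd w.1
    have ha' : S.ι (κ⁻¹ • a) = w.1 := by
      rw [map_smul, ha, hw1, smul_smul, inv_mul_cancel₀ hκ0, one_smul]
    rw [Submodule.ne_bot_iff]
    refine ⟨κ⁻¹ • a, (hEmem _).2 ?_, ?_⟩
    · rw [ha']
      exact ⟨w.2, hw1⟩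
    · intro h0
      rw [h0, map_zero] at ha'
      exact hw0 ha'.symm
  · intro a
    rw [hEmem, hN0mem]

/-- orthogonality to the eigenfunctions is preserved by `z ↦ PH_∅ (r U_c z)` -/
lemma orth_inv (hbasic : T_basic) (hBd : T_Bd) (hcond : T_cond) (hRB : T_RBind)
    {B : Finset ℕ} {r a : A} {c : Y Λ} (hr : S.ι r ∈ S.RB B) (hc : c.1.support ⊆ B)
    (ha : S.ι a ∈ S.HB ∅) {ψ : A} (hψ : S.IsEig ψ) (ho : ⟪S.ι ψ, S.ι a⟫_ℂ = 0) :
    ⟪S.ι ψ, S.ι (r * S.UA c a)⟫_ℂ = 0 := by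
  obtain ⟨hb1, hb2, hb3, hb4, -⟩ := hbasic Λ H S.toRep
  obtain ⟨-, -, -, -, -, -, -, -, -, -, -, -, -, -, -, hB16, hB17, -⟩ := hBd Λ A H S
  obtain ⟨-, -, -, -, hc5, -⟩ := hcond Λ A H S ∅
  obtain ⟨hr1, -⟩ := hRB Λ A H S B
  have e2 := S.inner_mul (star r) ψ (S.UA c a)
  rw [star_star] at e2
  rw [← e2, S.ι_U, inner_U S.toRep]
  -- `U_{-c} (star r * ψ) = s * ψ`
  set s : A := S.UA (-c) (star r) * (S.UA (-c) ψ * star ψ) with hs
  have hsB : S.ι s ∈ S.RB B := by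
    refine hB16 B _ _ ?_ ?_
    · rw [S.ι_U]
      exact hb4 B (-c) _ (by rw [supp_neg]; exact hc) (hB17 B _ hr)
    · refine hb2 _ B ?_ (hψ.2.2 (-c))
      rw [supp_neg]; exact hc
  have hsψ : S.UA (-c) (star r * ψ) = ψ * s := by
    rw [map_mul (S.UA (-c)), hs]
    have h1 : star ψ * ψ = 1 := by rw [mul_comm]; exact hψ.2.1
    calc S.UA (-c) (star r) * S.UA (-c) ψ
        = S.UA (-c) (star r) * S.UA (-c) ψ * (star ψ * ψ) := by rw [h1, mul_one]
      _ = ψ * (S.UA (-c) (star r) * (S.UA (-c) ψ * star ψ)) := by ring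
  have hs1 : S.PH ∅ (S.ι s) = S.ι (⟪S.ι 1, S.ι s⟫_ℂ • (1 : A)) := by
    rw [map_smul]; exact hr1 _ hsB
  have hs2 := hc5 ψ s _ hψ.1 hs1.symm
  rw [show S.U (-c) (S.ι (star r * ψ)) = S.ι (ψ * s) by rw [← S.ι_U, hsψ]]
  rw [← inner_PH' S.toRep ha, show S.toRep.PH ∅ (S.ι (ψ * s)) = _ from hs2, mul_smul_comm,
    mul_one, map_smul, inner_smul_left, ho, mul_zero]

/-- the final part: a common eigenvector is an eigenfunction -/
lemma isEig_of (hbasic : T_basic) (hBd : T_Bd) (hcond : T_cond) (hRB : T_RBind)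
    (ψ : A) (hb : S.ι ψ ∈ S.HB ∅) (hn : ⟪S.ι ψ, S.ι ψ⟫_ℂ = 1)
    (hcl : ∀ (B : Finset ℕ) (c : Y Λ), c.1.support ⊆ B → S.ι (S.UA c ψ) ∈
      closure (Submodule.span ℂ {x | ∃ r w : A, S.ι r ∈ S.RB B ∧ S.ι w ∈ S.HB ∅ ∧
        x = S.ι (r * w)} : Set H))
    (hR : ∀ (B : Finset ℕ) (c : Y Λ) (r : A), c.1.support ⊆ B → S.ι r ∈ S.RB B →
      ∃ μ : ℂ, S.PH ∅ (S.ι (r * S.UA c ψ)) = μ • S.ι ψ) : S.IsEig ψ := by
  obtain ⟨hb1, hb2, hb3, hb4, -⟩ := hbasic Λ H S.toRep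
  obtain ⟨hB1, hB2, hB3, hB4, hB5, hB6, hB7, hB8, hB9, hB10, hB11, hB12, hB13, hB14, hB15, hB16,
    hB17, hB18, -⟩ := hBd Λ A H S
  -- for every `c` there is `lam` in `RB (supp c)` with `U_c ψ = lam * ψ`
  have key : ∀ c : Y Λ, ∃ lam : A, S.ι lam ∈ S.RB c.1.support ∧ S.UA c ψ = lam * ψ := by
    intro c
    set B : Finset ℕ := c.1.support with hB
    obtain ⟨-, hc2, -, -, hc5, hc6, -⟩ := hcond Λ A H S B
    obtain ⟨hr1, hr2, hr3, hr4, hr5⟩ := hRB Λ A H S B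
    obtain ⟨C, hC⟩ := hB3 (star ψ * S.UA c ψ)
    obtain ⟨lam, hlam, -⟩ := hc2 C _ hC
    have hlamB : S.ι lam ∈ S.RB B := by rw [hlam]; exact PR_mem S.toRep _ _
    refine ⟨lam, hlamB, ?_⟩
    have horth : ∀ r w : A, S.ι r ∈ S.RB B → S.ι w ∈ S.HB ∅ →
        ⟪S.ι (r * w), S.ι (S.UA c ψ - lam * ψ)⟫_ℂ = 0 := by
      intro r w hr hw
      obtain ⟨μ, hμ⟩ := hR B c (star r) subset_rfl (hB17 B _ hr)
      have f1 : ∀ v : A, S.ι v ∈ S.HB ∅ →
          ⟪S.ι (r * v), S.ι (S.UA c ψ)⟫_ℂ = μ * ⟪S.ι v, S.ι ψ⟫_ℂ := by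
        intro v hv
        rw [S.inner_mul, ← inner_PH S.toRep hv]
        rw [show S.toRep.PH ∅ (S.ι (star r * S.UA c ψ)) = μ • S.ι ψ from hμ, inner_smul_right]
      have f2 : μ = ⟪S.ι r, S.ι lam⟫_ℂ := by
        have := f1 ψ hb
        rw [hn, mul_one] at this
        rw [← this, mul_comm, S.inner_mul, hlam]
        exact (inner_PR S.toRep hr _).symm
      have f3 : ⟪S.ι (r * w), S.ι (lam * ψ)⟫_ℂ = ⟪S.ι r, S.ι lam⟫_ℂ * ⟪S.ι w, S.ι ψ⟫_ℂ := by
        rw [← hB1, ← hB1, ← hB1]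
        have h := hr3 ∅ (star r * lam) (star w * ψ) (Finset.disjoint_empty_right _)
          (hB16 B _ _ (hB17 B _ hr) hlamB) (hB14 ∅ _ _ (hB15 ∅ _ hw) hb)
        rw [← h]
        congr 1
        rw [star_mul]
        ring
      rw [map_sub, inner_sub_right, f1 w hw, f3, f2, sub_self]
    have hmem : S.ι (S.UA c ψ - lam * ψ) ∈
        closure (Submodule.span ℂ {x | ∃ r w : A, S.ι r ∈ S.RB B ∧ S.ι w ∈ S.HB ∅ ∧
          x = S.ι (r * w)} : Set H) := by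
      rw [← Submodule.topologicalClosure_coe, map_sub]
      refine Submodule.sub_mem _ ?_ ?_
      · have := hcl B c subset_rfl
        rw [← Submodule.topologicalClosure_coe] at this
        exact this
      · exact Submodule.le_topologicalClosure _ (Submodule.subset_span ⟨lam, ψ, hlamB, hb, rfl⟩)
    have hz : S.ι (S.UA c ψ - lam * ψ) = 0 := by
      set d := S.ι (S.UA c ψ - lam * ψ) with hd
      have hcl' : closure (Submodule.span ℂ {x | ∃ r w : A, S.ι r ∈ S.RB B ∧ S.ι w ∈ S.HB ∅ ∧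
          x = S.ι (r * w)} : Set H) ⊆ {y | ⟪y, d⟫_ℂ = 0} := by
        refine closure_minimal ?_ (isClosed_eq (continuous_id.inner continuous_const)
          continuous_const)
        intro y hy
        change ⟪y, d⟫_ℂ = 0
        induction hy using Submodule.span_induction with
        | mem x hx =>
          obtain ⟨r, w, hr, hw, rfl⟩ := hx
          exact horth r w hr hw
        | zero => exact inner_zero_left _
        | add x y _ _ hx hy => rw [inner_add_left, hx, hy, add_zero]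
        | smul c x _ hx => rw [inner_smul_left, hx, mul_zero]
      exact inner_self_eq_zero.1 (hcl' hmem)
    have hz' : S.UA c ψ - lam * ψ = 0 := by
      apply S.ι_inj
      rw [hz, map_zero]
    exact sub_eq_zero.1 hz'
  -- `ψ * star ψ = 1`
  set e : A := ψ * star ψ with he
  have heb : S.ι e ∈ S.HB ∅ := hB14 ∅ _ _ hb (hB15 ∅ _ hb)
  have htre : ⟪S.ι 1, S.ι e⟫_ℂ = 1 := by
    have h1 := hB1 ψ ψ
    rw [hn, mul_comm] at h1
    exact h1
  have hinv : ∀ c : Y Λ, S.UA c e = e := by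
    intro c
    obtain ⟨lam, hlamB, hlam⟩ := key c
    obtain ⟨-, -, -, -, -, hc6, -⟩ := hcond Λ A H S c.1.support
    obtain ⟨-, hr2, -, hr4, -⟩ := hRB Λ A H S c.1.support
    have h1 : S.UA c e = (lam * star lam) * e := by
      rw [he, map_mul (S.UA c), map_star (S.UA c), hlam, star_mul]
      ring
    have h2 : S.PR c.1.support (S.ι (S.UA c e)) = S.ι 1 := by
      rw [S.ι_U, hr4 c _ subset_rfl heb, htre, one_smul]
    have h3 : S.ι 1 = S.PR c.1.support (S.ι e) := by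
      rw [hr2 ∅ _ (Finset.disjoint_empty_right _) heb, htre, one_smul]
    have h4 := hc6 (lam * star lam) e 1 (hB16 _ _ _ hlamB (hB17 _ _ hlamB)) h3
    rw [← h1, h2, mul_one] at h4
    have h5 : lam * star lam = 1 := S.ι_inj h4.symm
    rw [h1, h5, one_mul]
  have he1 : e = 1 := by
    obtain ⟨t, ht⟩ := S.erg (S.ι e) (fun y => by rw [← S.ι_U, hinv]) (V_base S.toRep heb)
    have h1 : ⟪S.ι (1 : A), S.ι (1 : A)⟫_ℂ = 1 := by
      rw [inner_self_eq_norm_sq_to_K, S.norm_one]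
      simp
    rw [ht, inner_smul_right, h1, mul_one] at htre
    rw [htre, one_smul] at ht
    exact S.ι_inj ht
  refine ⟨hb, he1, ?_⟩
  intro c
  obtain ⟨lam, hlamB, hlam⟩ := key c
  have : S.UA c ψ * star ψ = lam := by
    rw [hlam, mul_assoc, ← he, he1, mul_one]
  rw [this]
  exact hlamB

end sys

/-- module KZ -/
theorem Kzero (hbasic : T_basic) (hindep : T_indep) (hBd : T_Bd) (hcond : T_cond)
    (hRB : T_RBind) : T_Kzero := by
  intro Λ _ A _ _ _ _ H _ _ _ S p β k f φ K hK hKe z0 hz0 hz0'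
  by_contra hKz
  obtain ⟨κ, E, hκ0, hfd, hEne, hE⟩ := exists_eigenspace S hK.toKProp0 hKe hz0 hz0' hKz
  obtain ⟨ce, hce⟩ := exists_ce S hBd hcond
  -- the family of operators
  let I : Type := {x : Finset ℕ × A × Y Λ // S.ι x.2.1 ∈ S.RB x.1 ∧ x.2.2.1.support ⊆ x.1}
  let R : I → A →ₗ[ℂ] A := fun x =>
    ce ∘ₗ (LinearMap.mulLeft ℂ x.1.2.1) ∘ₗ (S.UA x.1.2.2).toAlgHom.toLinearMap
  have hRdef : ∀ x a, R x a = ce (x.1.2.1 * S.UA x.1.2.2 a) := fun _ _ => rfl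
  have hRbase : ∀ x a, S.ι (R x a) ∈ S.HB ∅ := by
    intro x a
    rw [hRdef, hce]
    exact PH_mem S.toRep _ _
  have hRinv : ∀ x, ∀ a ∈ E, R x a ∈ E := by
    intro x a ha
    obtain ⟨⟨hab, hao⟩, haK⟩ := (hE a).1 ha
    refine (hE _).2 ⟨⟨hRbase x a, fun ψ hψ => ?_⟩, ?_⟩
    · rw [hRdef, hce]
      have := inner_PH S.toRep hψ.1 (S.ι (x.1.2.1 * S.UA x.1.2.2 a))
      exact this.trans (orth_inv S hbasic hBd hcond hRB x.2.1 x.2.2 hab hψ (hao ψ hψ))
    · rw [hRdef, hce]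
      rw [hK.comm x.1.1 x.1.2.1 x.1.2.2 a (κ • a) x.2.1 x.2.2 hab (by rw [map_smul, haK])]
      rw [map_smul, mul_smul_comm, map_smul, map_smul]
  obtain ⟨ψ0, hψ0, hne, hψR⟩ := exists_common_eigenvector R _ E hfd le_rfl hEne hRinv
    (fun x y a ha => ce_comm S hbasic hindep hBd ce hce x.2.1 y.2.1 x.2.2 y.2.2 ((hE a).1 ha).1.1)
  -- normalise
  have hn0 : ‖S.ι ψ0‖ ≠ 0 := by
    rw [norm_ne_zero_iff]
    intro h
    exact hne (S.ι_inj (by rw [h, map_zero]))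
  set t : ℂ := ((‖S.ι ψ0‖⁻¹ : ℝ) : ℂ) with ht
  set ψ : A := t • ψ0 with hψdef
  have hψE : ψ ∈ E := Submodule.smul_mem _ _ hψ0
  obtain ⟨⟨hψb, hψo⟩, hψK⟩ := (hE ψ).1 hψE
  have hψn : ⟪S.ι ψ, S.ι ψ⟫_ℂ = 1 := by
    rw [inner_self_eq_norm_sq_to_K, hψdef, map_smul, norm_smul, ht, Complex.norm_real, norm_inv,
      norm_norm, inv_mul_cancel₀ hn0]
    simp
  have hEig : S.IsEig ψ := by
    refine isEig_of S hbasic hBd hcond hRB ψ hψb hψn ?_ ?_
    · intro B c hc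
      refine hK.clos B c (κ⁻¹ • ψ) ψ hc ?_ ?_
      · rw [map_smul]; exact Submodule.smul_mem _ _ hψb
      · have e1 : S.ι (κ⁻¹ • ψ) = κ⁻¹ • S.ι ψ := map_smul _ _ _
        have e2 : K (κ⁻¹ • S.ι ψ) = κ⁻¹ • K (S.ι ψ) := map_smul _ _ _
        rw [e1, e2, hψK, smul_smul, inv_mul_cancel₀ hκ0, one_smul]
    · intro B c r hc hr
      obtain ⟨μ, hμ⟩ := hψR ⟨(B, r, c), hr, hc⟩
      refine ⟨μ, ?_⟩
      rw [← hce]
      have h1 : ce (r * S.UA c ψ0) = μ • ψ0 := hμ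
      rw [hψdef, map_smul, mul_smul_comm, map_smul, h1, smul_comm, map_smul]
  have := hψo ψ hEig
  rw [hψn] at this
  exact one_ne_zero this

end Pool.Agent.H77.BE
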